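import Pool.Agent.W2helper75.FD.Stm5
import Pool.Agent.W2helper98.FD.Rec

/-!
# Project FD: quantitative recurrence (piece RECU)
-/

set_option autoImplicit false

open Filter Topology

namespace Pool.Agent.W2helper69.FD

open Pool.Agent.W2helper75.FD Pool.Agent.W2helper98.FD

section

variable {X S : Type} [Fintype S] [Nonempty S] {mx : X → S → X} {inv : S → S}

/-- the escape defect is small -/
theorem esc (hi : ∀ s, inv (inv s) = s) (hmx : ∀ x s, mx (mx x s) (inv s) = x) {y : X}
    {f : X → ℝ} (hfy : f y = 1) (hf0 : ∀ x, 0 ≤ f x) (hf1 : ∀ x, f x ≤ 1)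
    (hfs : (Function.support f).Finite) {B : ℕ} (hB : (Function.support f).ncard ≤ B) {τ : ℝ}
    (hτ : 0 < τ) (hfE : ∀ A : Finset X, ∑ x ∈ A, ∑ s, (f x - f (mx x s)) ^ 2 ≤ τ ^ 2) (M : ℕ) :
    M * ((Fintype.card S : ℝ) - ∑ s, hit mx y M (mx y s)) ≤
      M * ((Fintype.card S : ℝ) * τ) + (Fintype.card S : ℝ) * B := by
  classical
  set D : ℝ := (Fintype.card S : ℝ) with hD
  have hDpos : 0 < D := card_pos' (S := S)
  have hD1 : 1 ≤ D := by
    rw [hD]
    exact_mod_cast Fintype.card_pos (α := S)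
  have hmono : ∀ x, Monotone fun n => hit mx y n x := fun x =>
    monotone_nat_of_le_succ fun n => hit_mono_succ mx y n x
  have hnon : ∀ n x, x ≠ y → D * hit mx y n x - ∑ s, hit mx y n (mx x s) =
      D * (hit mx y n x - hit mx y (n + 1) x) := by
    intro n x hx
    rw [hit_succ_ne mx y hx, mul_sub, mul_div_cancel₀ _ hDpos.ne']
  have hvv : ∀ n, En mx (hit mx y n) (hit mx y n) ≤ 2 * D := by
    intro n
    rw [green hi hmx (hit_fin hmx y n)]
    have h1 : ∑ x ∈ (hit_fin hmx y n).toFinset, hit mx y n x *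
        ((Fintype.card S : ℝ) * hit mx y n x - ∑ s, hit mx y n (mx x s)) ≤
        ∑ x ∈ (hit_fin hmx y n).toFinset, if x = y then D else 0 := by
      apply Finset.sum_le_sum
      intro x _
      by_cases hx : x = y
      · rw [if_pos hx, hx, hit_self, one_mul, mul_one]
        have h2 : 0 ≤ ∑ s, hit mx y n (mx y s) := Finset.sum_nonneg fun s _ => hit_nonneg mx y n _
        linarith
      · rw [if_neg hx, hnon n x hx]
        have h2 := hit_mono_succ mx y n x
        have h3 := hit_nonneg mx y n x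
        have h4 : 0 ≤ hit mx y n x * (D * (hit mx y (n + 1) x - hit mx y n x)) :=
          mul_nonneg h3 (mul_nonneg hDpos.le (by linarith))
        have h5 : hit mx y n x * (D * (hit mx y n x - hit mx y (n + 1) x)) =
            - (hit mx y n x * (D * (hit mx y (n + 1) x - hit mx y n x))) := by ring
        linarith
    have h2 : ∑ x ∈ (hit_fin hmx y n).toFinset, (if x = y then D else 0) ≤ D := by
      rw [Finset.sum_ite_eq' (hit_fin hmx y n).toFinset y fun _ => D]
      split_ifs
      · exact le_rfl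
      · exact hDpos.le
    linarith
  have hff : En mx f f ≤ τ ^ 2 := en_le_of hi hmx hfs hfE
  have hyA : y ∈ hfs.toFinset := by
    rw [Set.Finite.mem_toFinset, Function.mem_support, hfy]
    exact one_ne_zero
  have hn : ∀ n, D - ∑ s, hit mx y n (mx y s) ≤ D * τ +
      D * ∑ x ∈ hfs.toFinset, f x * (hit mx y (n + 1) x - hit mx y n x) := by
    intro n
    have h1 := green hi hmx hfs (hit mx y n)
    have h2 := en_le hi hmx hfs (hit_fin hmx y n) hτ
    have h3 : (En mx f f / τ + τ * En mx (hit mx y n) (hit mx y n)) / 2 ≤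
        (τ + τ * (2 * D)) / 2 := by
      have h4 : En mx f f / τ ≤ τ := by
        rw [div_le_iff₀ hτ]
        calc En mx f f ≤ τ ^ 2 := hff
          _ = τ * τ := by ring
      have h5 := mul_le_mul_of_nonneg_left (hvv n) hτ.le
      linarith
    have h6 : ∑ x ∈ hfs.toFinset, f x *
        ((Fintype.card S : ℝ) * hit mx y n x - ∑ s, hit mx y n (mx x s)) =
        (D - ∑ s, hit mx y n (mx y s)) -
        D * ∑ x ∈ hfs.toFinset, f x * (hit mx y (n + 1) x - hit mx y n x) := by
      rw [← Finset.add_sum_erase _ _ hyA, ← Finset.add_sum_erase _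
        (fun x => f x * (hit mx y (n + 1) x - hit mx y n x)) hyA, hfy, hit_self, hit_self,
        Finset.sum_congr rfl (g := fun x => -(D * (f x *
          (hit mx y (n + 1) x - hit mx y n x)))) fun x hx => ?_, Finset.sum_neg_distrib,
        ← Finset.mul_sum]
      · ring
      · have hne : x ≠ y := (Finset.mem_erase.mp hx).1
        rw [hnon n x hne]
        ring
    rw [h6] at h1
    have h7 : (τ + τ * (2 * D)) / 2 ≤ 2 * (D * τ) := by nlinarith
    linarith
  -- sum over `n < M`
  have hS : ∑ n ∈ Finset.range M, (D - ∑ s, hit mx y n (mx y s)) ≤ M * (D * τ) +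
      D * ∑ x ∈ hfs.toFinset, f x * (hit mx y M x - hit mx y 0 x) := by
    calc ∑ n ∈ Finset.range M, (D - ∑ s, hit mx y n (mx y s))
        ≤ ∑ n ∈ Finset.range M, (D * τ +
          D * ∑ x ∈ hfs.toFinset, f x * (hit mx y (n + 1) x - hit mx y n x)) :=
          Finset.sum_le_sum fun n _ => hn n
      _ = M * (D * τ) + D * ∑ x ∈ hfs.toFinset, f x * (hit mx y M x - hit mx y 0 x) := by
          rw [Finset.sum_add_distrib, Finset.sum_const, Finset.card_range, nsmul_eq_mul,
            ← Finset.mul_sum, Finset.sum_comm]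
          congr 2
          refine Finset.sum_congr rfl fun x _ => ?_
          rw [← Finset.mul_sum, Finset.sum_range_sub (fun n => hit mx y n x)]
  have hb : ∑ x ∈ hfs.toFinset, f x * (hit mx y M x - hit mx y 0 x) ≤ B := by
    calc ∑ x ∈ hfs.toFinset, f x * (hit mx y M x - hit mx y 0 x)
        ≤ ∑ _x ∈ hfs.toFinset, (1 : ℝ) := by
          refine Finset.sum_le_sum fun x _ => ?_
          have h1 := hit_le_one mx y M x
          have h2 := hit_nonneg mx y 0 x
          have h3 := hmono x (Nat.zero_le M)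
          simp only at h3
          calc f x * (hit mx y M x - hit mx y 0 x) ≤ 1 * (hit mx y M x - hit mx y 0 x) :=
                mul_le_mul_of_nonneg_right (hf1 x) (by linarith)
            _ ≤ 1 := by linarith
      _ = (hfs.toFinset.card : ℝ) := by simp
      _ ≤ B := by
          rw [Set.ncard_eq_toFinset_card _ hfs] at hB
          exact_mod_cast hB
  have hlow : (M : ℝ) * (D - ∑ s, hit mx y M (mx y s)) ≤
      ∑ n ∈ Finset.range M, (D - ∑ s, hit mx y n (mx y s)) := by
    calc (M : ℝ) * (D - ∑ s, hit mx y M (mx y s))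
        = ∑ _n ∈ Finset.range M, (D - ∑ s, hit mx y M (mx y s)) := by
          rw [Finset.sum_const, Finset.card_range, nsmul_eq_mul]
      _ ≤ _ := by
          refine Finset.sum_le_sum fun n hn => ?_
          have h1 : ∑ s, hit mx y n (mx y s) ≤ ∑ s, hit mx y M (mx y s) :=
            Finset.sum_le_sum fun s _ => hmono (mx y s) (Finset.mem_range.1 hn).le
          linarith
  have h9 := mul_le_mul_of_nonneg_left hb hDpos.le
  linarith

/-- along a path to `y` the defect grows by the factor `|S|` at most -/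
theorem path_le (hmx : ∀ x s, mx (mx x s) (inv s) = x) {y : X} (M L : ℕ) {E : ℝ}
    (hE : (Fintype.card S : ℝ) - ∑ s, hit mx y M (mx y s) ≤ E) : ∀ (l : List S) (x : X),
    l.length ≤ L → run mx x l = y →
    1 - hit mx y (M + (L - l.length)) x ≤ (Fintype.card S : ℝ) ^ l.length * E := by
  have hDpos : 0 < (Fintype.card S : ℝ) := card_pos' (S := S)
  have hD1 : (1 : ℝ) ≤ (Fintype.card S : ℝ) := by
    exact_mod_cast Fintype.card_pos (α := S)
  have hmono : ∀ x, Monotone fun n => hit mx y n x := fun x =>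
    monotone_nat_of_le_succ fun n => hit_mono_succ mx y n x
  have hsum : ∀ n x, ∑ s : S, (1 - hit mx y n (mx x s)) =
      (Fintype.card S : ℝ) - ∑ s, hit mx y n (mx x s) := by
    intro n x
    rw [Finset.sum_sub_distrib]
    simp
  have hnn : ∀ n x (s : S), 0 ≤ 1 - hit mx y n (mx x s) := by
    intro n x s
    have := hit_le_one mx y n (mx x s)
    linarith
  have hE0 : 0 ≤ E := by
    have h1 := Finset.sum_nonneg fun s (_ : s ∈ Finset.univ) => hnn M y s
    rw [hsum] at h1
    linarith
  intro l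
  induction l with
  | nil =>
    intro x _ hx
    have hxy : x = y := hx
    rw [hxy, hit_self]
    simpa using hE0
  | cons s l ih =>
    intro x hl hx
    rw [List.length_cons] at hl
    have hx' : run mx (mx x s) l = y := hx
    have h1 := ih (mx x s) (by omega) hx'
    set z := mx x s with hz
    have hxz : x = mx z (inv s) := (hmx x s).symm
    set n := M + (L - (l.length + 1)) with hn
    have hn1 : M + (L - l.length) = n + 1 := by omega
    rw [hn1] at h1
    rw [List.length_cons, ← hn, hxz]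
    have hpow : (0 : ℝ) ≤ (Fintype.card S : ℝ) ^ l.length := by positivity
    have hle : 1 - hit mx y n (mx z (inv s)) ≤
        (Fintype.card S : ℝ) - ∑ s, hit mx y n (mx z s) := by
      rw [← hsum]
      exact Finset.single_le_sum (f := fun t : S => 1 - hit mx y n (mx z t))
        (fun t _ => hnn n z t) (Finset.mem_univ (inv s))
    by_cases hzy : z = y
    · rw [hzy] at hle ⊢
      have h2 : ∑ s, hit mx y M (mx y s) ≤ ∑ s, hit mx y n (mx y s) :=
        Finset.sum_le_sum fun s _ => hmono (mx y s) (by omega)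
      have h3 : (1 : ℝ) ≤ (Fintype.card S : ℝ) ^ (l.length + 1) := one_le_pow₀ hD1
      have h4 : E ≤ (Fintype.card S : ℝ) ^ (l.length + 1) * E := by nlinarith
      linarith
    · rw [hit_succ_ne mx y hzy] at h1
      have h5 : (Fintype.card S : ℝ) - ∑ s, hit mx y n (mx z s) =
          (Fintype.card S : ℝ) * (1 - (∑ s, hit mx y n (mx z s)) / (Fintype.card S : ℝ)) := by
        rw [mul_sub, mul_div_cancel₀ _ hDpos.ne', mul_one]
      rw [h5] at hle
      have h6 := mul_le_mul_of_nonneg_left h1 hDpos.le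
      rw [pow_succ]
      calc _ ≤ _ := hle
        _ ≤ _ := h6
        _ = _ := by ring

end

theorem recu : P_RECU := by
  classical
  intro S _ _ L η hη
  set D : ℝ := (Fintype.card S : ℝ) with hD
  have hDpos : 0 < D := card_pos' (S := S)
  have hD1 : 1 ≤ D := by
    rw [hD]
    exact_mod_cast Fintype.card_pos (α := S)
  set τ : ℝ := η / (2 * D ^ (L + 1)) with hτ
  have hτ0 : 0 < τ := by positivity
  refine ⟨τ ^ 2, by positivity, fun B => ?_⟩
  obtain ⟨M, hM⟩ := exists_nat_gt (2 * D ^ (L + 1) * B / η)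
  refine ⟨(M + 1) + L, ?_⟩
  intro X mx inv hi hmx y f hfy hf0 hf1 hfs hB hfE x hx
  obtain ⟨l, hl, hrun⟩ := hx
  have h1 := esc hi hmx hfy hf0 hf1 hfs hB hτ0 hfE (M + 1)
  rw [← hD] at h1
  have hM0 : (0 : ℝ) < ((M + 1 : ℕ) : ℝ) := by positivity
  have hE : D - ∑ s, hit mx y (M + 1) (mx y s) ≤ D * τ + D * B / ((M + 1 : ℕ) : ℝ) := by
    have h2 : D * τ + D * B / ((M + 1 : ℕ) : ℝ) =
        (((M + 1 : ℕ) : ℝ) * (D * τ) + D * B) / ((M + 1 : ℕ) : ℝ) := by
      field_simp
    rw [h2, le_div_iff₀ hM0]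
    linarith
  have h3 := path_le hmx (M + 1) L hE l x hl hrun
  rw [← hD] at h3
  have hmono : Monotone fun n => hit mx y n x :=
    monotone_nat_of_le_succ fun n => hit_mono_succ mx y n x
  have h4 := hmono (show M + 1 + (L - l.length) ≤ M + 1 + L by omega)
  simp only at h4
  have hE0 : 0 ≤ D * τ + D * B / ((M + 1 : ℕ) : ℝ) := by positivity
  have h5 : D ^ l.length * (D * τ + D * B / ((M + 1 : ℕ) : ℝ)) ≤
      D ^ L * (D * τ + D * B / ((M + 1 : ℕ) : ℝ)) :=
    mul_le_mul_of_nonneg_right (pow_le_pow_right₀ hD1 hl) hE0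
  have h6 : D ^ L * (D * τ) = η / 2 := by
    have h8 : D ^ (L + 1) ≠ 0 := by positivity
    rw [← mul_assoc, ← pow_succ, hτ]
    field_simp
  have h7 : D ^ L * (D * B / ((M + 1 : ℕ) : ℝ)) ≤ η / 2 := by
    have h8 : 2 * D ^ (L + 1) * B ≤ η * ((M + 1 : ℕ) : ℝ) := by
      rw [div_lt_iff₀ hη] at hM
      push_cast
      nlinarith
    rw [← mul_div_assoc, div_le_iff₀ hM0]
    calc D ^ L * (D * B) = (2 * D ^ (L + 1) * B) / 2 := by ring
      _ ≤ (η * ((M + 1 : ℕ) : ℝ)) / 2 := by linarith
      _ = η / 2 * ((M + 1 : ℕ) : ℝ) := by ring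
  have h10 : D ^ L * (D * τ + D * B / ((M + 1 : ℕ) : ℝ)) =
      D ^ L * (D * τ) + D ^ L * (D * B / ((M + 1 : ℕ) : ℝ)) := mul_add _ _ _
  linarith

end Pool.Agent.W2helper69.FD
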