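import Pool.Agent.W2helper75.FD.Stm3
import Pool.Agent.W2helper71.FD.Srv

/-!
# Piece SRV3 of project FD, part 3 (helper75): assembly of the branching process, with two sets `M ⊆ M'`.
Adapted from the piece SRV of part 2 (helper71).
-/

set_option autoImplicit false
set_option linter.unusedSectionVars false

open MeasureTheory ProbabilityTheory Filter Topology
open scoped ENNReal NNReal

namespace Pool.Agent.W2helper69.FD

open Pool.Agent.W2helper75.FD
open Pool.Agent.W2helper71.FD (pth_mul pos_congr meas_dep Tg meas_Tg exists_Tg Gd meas_Gd dlaw_Gd meas_alive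
  alive_anti)

/-- the properties of the two sets -/
structure Co {Γ : Type} [Group Γ] (M M' : Set Γ) : Prop where
  one : (1 : Γ) ∈ M
  mul : ∀ x ∈ M, ∀ y ∈ M, x * y ∈ M
  sub : M ⊆ M'
  dis : ∀ y z w : Γ, y⁻¹ * w ∈ M → z⁻¹ * w ∈ M → y⁻¹ * z ∈ M' ∨ z⁻¹ * y ∈ M'

theorem spec_congr {Γ : Type} [Group Γ] {S : Finset Γ} (M M' : Set Γ) (N : ℕ) (c c' : ℕ → S)
    (hc : ∀ i < N, c i = c' i) (n : ℕ) : Spec3 M M' N c n → Spec3 M M' N c' n := by
  rintro ⟨h1, h2, h3, h4⟩
  have hp := pos_congr c c' N hc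
  refine ⟨h1, h2, ?_, fun k hk hkn => ?_⟩
  · rw [← hp n h2]; exact h3
  · rw [← hp n h2, ← hp k hk]; exact h4 k hk hkn

section Children

variable {Γ : Type} [Group Γ] {S : Finset Γ}

/-- the special times -/
noncomputable def specs (M M' : Set Γ) (N : ℕ) (c : ℕ → S) : Finset ℕ := by
  classical exact (Finset.range (N + 1)).filter (Spec3 M M' N c)

theorem mem_specs {M M' : Set Γ} {N : ℕ} {c : ℕ → S} {n : ℕ} :
    n ∈ specs M M' N c ↔ Spec3 M M' N c n := by
  classical
  unfold specs
  rw [Finset.mem_filter, Finset.mem_range]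
  constructor
  · exact fun h => h.2
  · exact fun h => ⟨by have := h.2.1; omega, h⟩

/-- the children -/
noncomputable def chd (M M' : Set Γ) (N : ℕ) (t : ℝ) (g : Γ) (d : Dat S) :
    Finset Γ := by
  classical exact if Gd N t d then
    (specs M M' N (d.2 0).2).image (fun n => g * pos (d.2 0).2 n) else ∅

theorem mem_chd {M M' : Set Γ} {N : ℕ} {t : ℝ} {g : Γ} {d : Dat S} {x : Γ} :
    x ∈ chd M M' N t g d ↔ Gd N t d ∧ ∃ n, Spec3 M M' N (d.2 0).2 n ∧ g * pos (d.2 0).2 n = x := by
  classical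
  unfold chd
  by_cases hg : Gd N t d
  · rw [if_pos hg, Finset.mem_image]
    simp only [mem_specs]
    exact ⟨fun h => ⟨hg, h⟩, fun h => h.2⟩
  · rw [if_neg hg]
    simp [hg]

theorem spec_inj {M M' : Set Γ} (hM : Co M M') {N : ℕ} {c : ℕ → S} {n n' : ℕ}
    (h1 : Spec3 M M' N c n) (h2 : Spec3 M M' N c n') (he : pos c n = pos c n') : n = n' := by
  by_contra hne
  refine h1.2.2.2 n' h2.2.1 (fun h => hne h.symm) ?_
  rw [← he, inv_mul_cancel]
  exact hM.sub hM.one

theorem card_chd {M M' : Set Γ} (hM : Co M M') (N : ℕ) (t : ℝ) (g : Γ)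
    (d : Dat S) : ((chd M M' N t g d).card : ℝ≥0∞) = ∑ n ∈ Finset.range (N + 1),
      ({d : Dat S | Gd N t d ∧ Spec3 M M' N (d.2 0).2 n}.indicator 1 d : ℝ≥0∞) := by
  classical
  by_cases hg : Gd N t d
  · have e1 : (chd M M' N t g d).card = (specs M M' N (d.2 0).2).card := by
      unfold chd
      rw [if_pos hg]
      refine Finset.card_image_of_injOn fun n hn n' hn' he => ?_
      exact spec_inj hM (mem_specs.mp hn) (mem_specs.mp hn') (mul_left_cancel he)
    have e2 : (specs M M' N (d.2 0).2).card = ((Finset.range (N + 1)).filter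
        (Spec3 M M' N (d.2 0).2)).card := by
      congr 1
    rw [e1, e2, Finset.card_filter, Nat.cast_sum]
    refine Finset.sum_congr rfl fun n _ => ?_
    by_cases hs : Spec3 M M' N (d.2 0).2 n
    · have hmem : d ∈ {d : Dat S | Gd N t d ∧ Spec3 M M' N (d.2 0).2 n} := ⟨hg, hs⟩
      rw [if_pos hs, Set.indicator_of_mem hmem, Nat.cast_one, Pi.one_apply]
    · have hmem : d ∉ {d : Dat S | Gd N t d ∧ Spec3 M M' N (d.2 0).2 n} := fun h => hs h.2
      rw [if_neg hs, Set.indicator_of_notMem hmem, Nat.cast_zero]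
  · have e1 : (chd M M' N t g d).card = 0 := by
      unfold chd
      rw [if_neg hg, Finset.card_empty]
    rw [e1]
    symm
    rw [Nat.cast_zero]
    refine Finset.sum_eq_zero fun n _ => ?_
    rw [Set.indicator_of_notMem]
    exact fun h => hg h.1

theorem card_chd_le {M M' : Set Γ} (N : ℕ) (t : ℝ) (g : Γ)
    (d : Dat S) : (chd M M' N t g d).card ≤ N + 1 := by
  classical
  unfold chd
  split_ifs
  · refine Finset.card_image_le.trans ?_
    refine (Finset.card_le_card (t := Finset.range (N + 1)) fun n hn => ?_).trans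
      (Finset.card_range _).le
    have := (mem_specs.mp hn).2.1
    exact Finset.mem_range.mpr (by omega)
  · simp

end Children

section Main

variable {Γ : Type} [Group Γ] {S : Finset Γ} [Nonempty S]
  [MeasurableSpace S] [DiscreteMeasurableSpace S]

theorem meas_spec (M M' : Set Γ) (N n : ℕ) :
    MeasurableSet {c : ℕ → S | Spec3 M M' N c n} :=
  meas_dep N _ fun c c' hc => spec_congr M M' N c c' hc n

theorem meas_chd (M M' : Set Γ) (N : ℕ) (t : ℝ) (g : Γ) (F : Finset Γ) :
    MeasurableSet {d : Dat S | chd M M' N t g d = F} := by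
  classical
  have hA : MeasurableSet {d : Dat S | Gd N t d ∧
      (specs M M' N (d.2 0).2).image (fun n => g * pos (d.2 0).2 n) = F} := by
    refine meas_Gd N t (fun c => (specs M M' N c).image (fun n => g * pos c n) = F) ?_
    refine meas_dep N _ fun c c' hc hF => ?_
    rw [← hF]
    ext x
    simp only [Finset.mem_image, mem_specs]
    have hp := pos_congr c c' N hc
    constructor
    · rintro ⟨n, hn, rfl⟩
      have h2 := spec_congr M M' N c' c (fun i hi => (hc i hi).symm) n hn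
      exact ⟨n, h2, by rw [hp n hn.2.1]⟩
    · rintro ⟨n, hn, rfl⟩
      exact ⟨n, spec_congr M M' N c c' hc n hn, by rw [hp n hn.2.1]⟩
  have hG : MeasurableSet {d : Dat S | Gd N t d} := by
    have := meas_Gd (S := S) N t (fun _ => True) (by simp)
    simpa using this
  have e : {d : Dat S | chd M M' N t g d = F} = {d : Dat S | Gd N t d ∧
      (specs M M' N (d.2 0).2).image (fun n => g * pos (d.2 0).2 n) = F} ∪
      ({d : Dat S | Gd N t d}ᶜ ∩ {_d : Dat S | (∅ : Finset Γ) = F}) := by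
    ext d
    simp only [Set.mem_ofPred_eq, Set.mem_union, Set.mem_inter_iff, Set.mem_compl_iff]
    unfold chd
    by_cases hg : Gd N t d
    · simp [hg]
    · simp [hg]
  rw [e]
  exact hA.union (hG.compl.inter (MeasurableSet.const _))

theorem alive_visited {M M' : Set Γ} (hM : Co M M') (N : ℕ) (t : ℝ)
    (ω : Γ → Dat S) (m : ℕ) : ∀ v, Visited (mg S) t 1 ω v → Alive (chd M M' N t) ω m v →
      ∃ F : Finset Γ, F.card = m + 1 ∧ ∀ x ∈ F, Visited (mg S) t 1 ω x ∧ v⁻¹ * x ∈ M := by
  classical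
  induction m with
  | zero =>
    intro v hv _
    refine ⟨{v}, by simp, fun x hx => ?_⟩
    rw [Finset.mem_singleton] at hx
    subst hx
    exact ⟨hv, by rw [inv_mul_cancel]; exact hM.one⟩
  | succ m ih =>
    intro v hv hA
    obtain ⟨x, hx, hA⟩ := hA
    obtain ⟨⟨hd, hT⟩, n, hn, rfl⟩ := mem_chd.mp hx
    have hx2 : Visited (mg S) t 1 ω (v * pos ((ω v).2 0).2 n) := by
      refine Visited.step v _ hv ⟨0, hd, n, hT n hn.2.1, ?_⟩
      exact pth_mul v _ n
    obtain ⟨F, hF, hF2⟩ := ih _ hx2 hA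
    have hn0 : (pos ((ω v).2 0).2 n)⁻¹ ∉ M := by
      have h1 := hn.2.2.2 0 (Nat.zero_le _) (by have := hn.1; omega)
      have h2 : pos ((ω v).2 0).2 0 = 1 := rfl
      rw [h2, mul_one] at h1
      exact fun h => h1 (hM.sub h)
    have hnM : pos ((ω v).2 0).2 n ∈ M := hn.2.2.1
    refine ⟨insert v F, ?_, fun y hy => ?_⟩
    · rw [Finset.card_insert_of_notMem, hF]
      intro hvF
      apply hn0
      have := (hF2 v hvF).2
      rwa [mul_inv_rev, mul_assoc, inv_mul_cancel, mul_one] at this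
    · rw [Finset.mem_insert] at hy
      rcases hy with rfl | hy
      · exact ⟨hv, by rw [inv_mul_cancel]; exact hM.one⟩
      · refine ⟨(hF2 y hy).1, ?_⟩
        have h1 := hM.mul _ hnM _ (hF2 y hy).2
        have e : pos ((ω v).2 0).2 n * ((v * pos ((ω v).2 0).2 n)⁻¹ * y) = v⁻¹ * y := by group
        rwa [e] at h1

end Main

/-- SRV3 -/
theorem srv3 (h1 : P_GWS) (h2 : P_OFF) : P_SRV3 := by
  intro Γ _ _ S _ _ _ M M' hM1 hM2 hM3 hM4 hS lam hlam
  classical
  have hM : Co M M' := ⟨hM1, hM2, hM3, hM4⟩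
  set p := poissonMeasure lam {k : ℕ | 0 < k} with hp
  have hp0 : p ≠ 0 := by
    intro h0
    have h1 : poissonMeasure lam ({1} : Set ℕ) ≤ 0 := by
      rw [← h0, hp]
      refine measure_mono ?_
      intro k hk
      rw [Set.mem_singleton_iff] at hk
      rw [hk]
      exact Nat.one_pos
    rw [poissonMeasure_singleton] at h1
    have h2 : (0 : ℝ) < lam := hlam
    have h3 : 0 < Real.exp (-(lam : ℝ)) * (lam : ℝ) ^ 1 / (Nat.factorial 1 : ℝ) := by positivity
    exact absurd h1 (not_le.2 (ENNReal.ofReal_pos.2 h3))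
  have hp1 : p ≠ ⊤ := measure_ne_top _ _
  obtain ⟨N, hN⟩ := hS (4 / p) (ENNReal.div_ne_top (by norm_num) hp0)
  obtain ⟨t0, ht0⟩ := exists_Tg N
  obtain ⟨r, hr0, hr1, hr⟩ := h2 (N + 1)
  refine ⟨t0, fun t ht => ?_⟩
  have hT := ht0 t ht
  -- the law of the number of children
  have hcard : ∀ g : Γ, Measurable fun d : Dat S => (chd M M' N t g d).card := by
    intro g
    refine measurable_to_countable' fun k => ?_
    have e : (fun d : Dat S => (chd M M' N t g d).card) ⁻¹' {k} =
        ⋃ F : Finset Γ, ⋃ _ : F.card = k, {d : Dat S | chd M M' N t g d = F} := by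
      ext d
      simp only [Set.mem_preimage, Set.mem_singleton_iff, Set.mem_iUnion, Set.mem_ofPred_eq,
        exists_prop]
      constructor
      · intro h; exact ⟨_, h, rfl⟩
      · rintro ⟨F, h, rfl⟩; exact h
    rw [e]
    exact MeasurableSet.iUnion fun F => MeasurableSet.iUnion fun _ => meas_chd M M' N t g F
  have hmean : ∀ g : Γ, 2 ≤ ∫⁻ d, ((chd M M' N t g d).card : ℝ≥0∞) ∂(dlaw S lam) := by
    intro g
    have e1 : ∫⁻ d, ((chd M M' N t g d).card : ℝ≥0∞) ∂(dlaw S lam) =
        ∑ n ∈ Finset.range (N + 1), p * (tlaw (Tg N t) * mlaw S {c | Spec3 M M' N c n}) := by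
      simp_rw [card_chd hM N t g]
      rw [lintegral_finsetSum]
      · refine Finset.sum_congr rfl fun n _ => ?_
        rw [lintegral_indicator_one (meas_Gd N t (fun c => Spec3 M M' N c n) (meas_spec M M' N n))]
        exact dlaw_Gd lam N t (fun c => Spec3 M M' N c n) (meas_spec M M' N n)
      · intro n _
        exact measurable_one.indicator
          (meas_Gd N t (fun c => Spec3 M M' N c n) (meas_spec M M' N n))
    rw [e1, ← Finset.mul_sum, ← Finset.mul_sum]
    calc (2 : ℝ≥0∞) = p * (1 / 2 * (4 / p)) := by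
          rw [ENNReal.div_eq_inv_mul (a := 4), ← mul_assoc (1 / 2), mul_comm (1 / 2 : ℝ≥0∞),
            ← mul_assoc, ← mul_assoc, ENNReal.mul_inv_cancel hp0 hp1, one_mul]
          rw [show (4 : ℝ≥0∞) = 2 * 2 by norm_num, ← mul_assoc, one_div,
            ENNReal.inv_mul_cancel two_ne_zero ENNReal.ofNat_ne_top, one_mul]
      _ ≤ _ := by gcongr
  have hint : ∀ g : Γ, ∫⁻ d, (1 - r) ^ (chd M M' N t g d).card ∂(dlaw S lam) ≤ 1 - r := fun g =>
    hr (Dat S) (dlaw S lam) _ (hcard g) (fun d => card_chd_le N t g d) (hmean g)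
  have hgws : ∀ m, r ≤ law Γ S lam {ω | Alive (chd M M' N t) ω m 1} := by
    intro m
    refine h1 Γ (Dat S) (dlaw S lam) (fun g => {y | g⁻¹ * y ∈ M}) (chd M M' N t)
      (meas_chd M M' N t) (fun v => ?_) (fun v d x hx => ?_) (fun v d x hx y hy hxy => ?_)
      r hr1 hint m 1
    · show v⁻¹ * v ∈ M
      rw [inv_mul_cancel]; exact hM.one
    · obtain ⟨_, n, hn, rfl⟩ := mem_chd.mp hx
      have hnM : pos (d.2 0).2 n ∈ M := hn.2.2.1
      constructor
      · intro y hy
        have hy' : (v * pos (d.2 0).2 n)⁻¹ * y ∈ M := hy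
        show v⁻¹ * y ∈ M
        have h1 := hM.mul _ hnM _ hy'
        have e : pos (d.2 0).2 n * ((v * pos (d.2 0).2 n)⁻¹ * y) = v⁻¹ * y := by group
        rwa [e] at h1
      · intro hv
        have hv' : (v * pos (d.2 0).2 n)⁻¹ * v ∈ M := hv
        rw [mul_inv_rev, mul_assoc, inv_mul_cancel, mul_one] at hv'
        have h1 := hn.2.2.2 0 (Nat.zero_le _) (by have := hn.1; omega)
        have h2 : pos (d.2 0).2 0 = 1 := rfl
        rw [h2, mul_one] at h1
        exact h1 (hM.sub hv')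
    · obtain ⟨_, n, hn, rfl⟩ := mem_chd.mp hx
      obtain ⟨_, n', hn', rfl⟩ := mem_chd.mp hy
      have hne : n ≠ n' := fun h => hxy (by rw [h])
      rw [Set.disjoint_left]
      intro z hz hz'
      rcases hM.dis _ _ z hz hz' with h3 | h3
      · have e : (v * pos (d.2 0).2 n)⁻¹ * (v * pos (d.2 0).2 n') =
          (pos (d.2 0).2 n)⁻¹ * pos (d.2 0).2 n' := by group
        rw [e] at h3
        exact hn.2.2.2 n' hn'.2.1 (fun h => hne h.symm) h3
      · have e : (v * pos (d.2 0).2 n')⁻¹ * (v * pos (d.2 0).2 n) =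
          (pos (d.2 0).2 n')⁻¹ * pos (d.2 0).2 n := by group
        rw [e] at h3
        exact hn'.2.2.2 n hn.2.1 hne h3
  -- the intersection
  have hanti : Antitone fun m : ℕ => {ω : Γ → Dat S | Alive (chd M M' N t) ω m 1} :=
    antitone_nat_of_succ_le fun m ω hω => alive_anti _ ω m 1 hω
  have hlim := tendsto_measure_iInter_atTop (μ := law Γ S lam)
    (s := fun m : ℕ => {ω : Γ → Dat S | Alive (chd M M' N t) ω m 1})
    (fun m => (meas_alive (chd M M' N t) (meas_chd M M' N t) m 1).nullMeasurableSet) hanti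
    ⟨0, measure_ne_top _ _⟩
  have hr2 : r ≤ law Γ S lam (⋂ m : ℕ, {ω : Γ → Dat S | Alive (chd M M' N t) ω m 1}) :=
    ge_of_tendsto' hlim hgws
  refine lt_of_lt_of_le (lt_of_lt_of_le hr0 hr2) (measure_mono ?_)
  intro ω hω
  rw [Set.mem_iInter] at hω
  show {v | Visited (mg S) t 1 ω v}.Infinite
  intro hfin
  obtain ⟨F, hF, hF2⟩ := alive_visited hM N t ω hfin.toFinset.card 1 Visited.root
    (hω hfin.toFinset.card)
  have h3 : F ⊆ hfin.toFinset := fun x hx => by
    rw [Set.Finite.mem_toFinset]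
    exact (hF2 x hx).1
  have h4 := Finset.card_le_card h3
  omega

end Pool.Agent.W2helper69.FD
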